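import Pool.Agent.Run7.h782.GS.Pub
import Pool.Agent.H459R3.NS.Ibp

/-!
WS, piece W5c (helper475): the weak formulation of a solution which is smooth for positive times.
-/

set_option autoImplicit false

open MeasureTheory Set Filter Topology
open scoped ContDiff ENNReal

namespace Run7.h475.WS

open H459R3.NS Pool.Agent.Run7.h782.GS

/-- The domain. -/
lemma dom_open : IsOpen (Ioi (0 : ℝ) ×ˢ (univ : Set V)) := isOpen_Ioi.prod isOpen_univ

section

variable {w : ℝ → V → ℝ}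

/-- the slices of a smooth function are smooth -/
lemma slice (hw : ContDiffOn ℝ ∞ (fun z : ℝ × V => w z.1 z.2) (Ioi 0 ×ˢ univ)) {t : ℝ}
    (ht : 0 < t) : ContDiff ℝ ∞ (w t) := by
  have h := hw.comp (f := fun x : V => ((t, x) : ℝ × V)) (s := univ)
    (contDiff_const.prodMk contDiff_id).contDiffOn (fun x _ => ⟨ht, mem_univ _⟩)
  exact contDiffOn_univ.1 h

/-- the directional derivatives are continuous -/
lemma dir_cont (hw : ContDiffOn ℝ ∞ (fun z : ℝ × V => w z.1 z.2) (Ioi 0 ×ˢ univ)) (d : ℝ × V) :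
    ContinuousOn (fun z : ℝ × V => fderiv ℝ (fun z : ℝ × V => w z.1 z.2) z d)
      (Ioi 0 ×ˢ univ) :=
  (hw.continuousOn_fderiv_of_isOpen dom_open (by norm_cast)).clm_apply continuousOn_const

lemma has_fd (hw : ContDiffOn ℝ ∞ (fun z : ℝ × V => w z.1 z.2) (Ioi 0 ×ˢ univ)) {t : ℝ}
    (ht : 0 < t) (x : V) : HasFDerivAt (fun z : ℝ × V => w z.1 z.2)
      (fderiv ℝ (fun z : ℝ × V => w z.1 z.2) (t, x)) (t, x) :=
  ((hw.contDiffAt (dom_open.mem_nhds
    (show (t, x) ∈ Ioi (0 : ℝ) ×ˢ (univ : Set V) from ⟨ht, mem_univ _⟩))).differentiableAt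
    (by norm_num)).hasFDerivAt

/-- the derivative in time -/
lemma has_dt (hw : ContDiffOn ℝ ∞ (fun z : ℝ × V => w z.1 z.2) (Ioi 0 ×ˢ univ)) {t : ℝ}
    (ht : 0 < t) (x : V) : HasDerivAt (fun s => w s x)
      (fderiv ℝ (fun z : ℝ × V => w z.1 z.2) (t, x) ((1 : ℝ), (0 : V))) t := by
  have h1 : HasDerivAt (fun s : ℝ => ((s, x) : ℝ × V)) ((1 : ℝ), (0 : V)) t :=
    (hasDerivAt_id t).prodMk (hasDerivAt_const t x)
  exact (has_fd hw ht x).comp_hasDerivAt t h1

/-- the integral of the derivative in time -/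
lemma ftc (hw : ContDiffOn ℝ ∞ (fun z : ℝ × V => w z.1 z.2) (Ioi 0 ×ˢ univ)) {τ t : ℝ}
    (hτ : 0 < τ) (hτt : τ ≤ t) (x : V) :
    ∫ s in Ioc τ t, deriv (fun s => w s x) s = w t x - w τ x := by
  rw [← intervalIntegral.integral_of_le hτt]
  have hpos : ∀ s ∈ uIcc τ t, 0 < s := by
    intro s hs
    rw [uIcc_of_le hτt] at hs
    exact hτ.trans_le hs.1
  have hd : ∀ s ∈ uIcc τ t, HasDerivAt (fun s => w s x) (deriv (fun s => w s x) s) s := by
    intro s hs
    have := has_dt hw (hpos s hs) x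
    rwa [this.deriv]
  refine intervalIntegral.integral_eq_sub_of_hasDerivAt hd ?_
  apply ContinuousOn.intervalIntegrable
  have h1 : ContinuousOn (fun s : ℝ => fderiv ℝ (fun z : ℝ × V => w z.1 z.2) (s, x)
      ((1 : ℝ), (0 : V))) (uIcc τ t) :=
    (dir_cont hw ((1 : ℝ), (0 : V))).comp (by fun_prop) (fun s hs => ⟨hpos s hs, mem_univ _⟩)
  exact h1.congr fun s hs => (has_dt hw (hpos s hs) x).deriv

end

/-- The spatial identity at one time. -/
lemma space {v φ : Fin 3 → V → ℝ} {q : V → ℝ} (ν : ℝ) (hv : ∀ i, SP (v i)) (hφ : ∀ i, SP (φ i))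
    (hq : SP q) (hdv : ∀ x, ∑ i, pd i (v i) x = 0) (hdφ : ∀ x, ∑ i, pd i (φ i) x = 0) :
    ∫ x in cube, ∑ i, (ν * ∑ j, pd j (pd j (v i)) x - pd i q x - ∑ j, v j x * pd j (v i) x) * φ i x
    = ∫ x in cube, (∑ i, ∑ j, v i x * v j x * pd i (φ j) x
      + ν * ∑ i, v i x * ∑ j, pd j (pd j (φ i)) x) := by
  have hpr := int_press hφ hdφ hq
  -- the viscous term
  have hvis : ∀ i j, ∫ x in cube, pd j (pd j (v i)) x * φ i x
      = ∫ x in cube, v i x * pd j (pd j (φ i)) x := by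
    intro i j
    rw [ibp ((hv i).pd j) (hφ i) j, ibp (hv i) ((hφ i).pd j) j, neg_neg]
  -- the convection
  have hcon : ∑ i, ∑ j, ∫ x in cube, v j x * pd j (v i) x * φ i x
      = -∑ i, ∑ j, ∫ x in cube, v i x * v j x * pd i (φ j) x := by
    have h1 : ∀ i j, ∫ x in cube, v j x * pd j (v i) x * φ i x
        = -(∫ x in cube, v i x * φ i x * pd j (v j) x)
          - ∫ x in cube, v j x * v i x * pd j (φ i) x := by
      intro i j
      have e1 : ∀ x, v j x * pd j (v i) x * φ i x = pd j (v i) x * (v j x * φ i x) :=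
        fun x => by ring
      simp_rw [e1]
      rw [ibp (hv i) ((hv j).mul (hφ i)) j]
      simp_rw [pd_mul (hv j) (hφ i) j]
      have e2 : ∀ x, v i x * (v j x * pd j (φ i) x + pd j (v j) x * φ i x)
          = v i x * φ i x * pd j (v j) x + v j x * v i x * pd j (φ i) x := fun x => by ring
      simp_rw [e2]
      rw [integral_add (((hv i).mul (hφ i)).mul ((hv j).pd j)).int
        (((hv j).mul (hv i)).mul ((hφ i).pd j)).int]
      ring
    simp_rw [h1]
    have h2 : ∀ i, ∑ j, ∫ x in cube, v i x * φ i x * pd j (v j) x = 0 := by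
      intro i
      rw [← integral_finsetSum _ fun j _ => (((hv i).mul (hφ i)).mul ((hv j).pd j)).int]
      simp_rw [← Finset.mul_sum, hdv]
      simp
    simp_rw [Finset.sum_sub_distrib, Finset.sum_neg_distrib, h2]
    rw [Finset.sum_const_zero, neg_zero, zero_sub, Finset.sum_comm]
  have hL : ∀ x, ∑ i, (ν * ∑ j, pd j (pd j (v i)) x - pd i q x - ∑ j, v j x * pd j (v i) x) * φ i x
      = ν * (∑ i, ∑ j, pd j (pd j (v i)) x * φ i x) - (∑ i, φ i x * pd i q x)
        - ∑ i, ∑ j, v j x * pd j (v i) x * φ i x := by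
    intro x
    simp only [Fin.sum_univ_three]
    ring
  simp_rw [hL]
  have i1 : IntegrableOn (fun x => ν * (∑ i, ∑ j, pd j (pd j (v i)) x * φ i x)) cube :=
    (SP.sum (s := Finset.univ) fun i _ => SP.sum (s := Finset.univ) fun j _ =>
      (((hv i).pd j).pd j).mul (hφ i)).int.const_mul ν
  have i2 : IntegrableOn (fun x => ∑ i, φ i x * pd i q x) cube :=
    (SP.sum (s := Finset.univ) fun i _ => (hφ i).mul (hq.pd i)).int
  have i3 : IntegrableOn (fun x => ∑ i, ∑ j, v j x * pd j (v i) x * φ i x) cube :=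
    (SP.sum (s := Finset.univ) fun i _ => SP.sum (s := Finset.univ) fun j _ =>
      ((hv j).mul ((hv i).pd j)).mul (hφ i)).int
  have i4 : IntegrableOn (fun x => ∑ i, ∑ j, v i x * v j x * pd i (φ j) x) cube :=
    (SP.sum (s := Finset.univ) fun i _ => SP.sum (s := Finset.univ) fun j _ =>
      ((hv i).mul (hv j)).mul ((hφ j).pd i)).int
  have i5 : IntegrableOn (fun x => ν * ∑ i, v i x * ∑ j, pd j (pd j (φ i)) x) cube :=
    (SP.sum (s := Finset.univ) fun i _ => (hv i).mul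
      (SP.sum (s := Finset.univ) fun j _ => ((hφ i).pd j).pd j)).int.const_mul ν
  have i12 : IntegrableOn (fun x => ν * (∑ i, ∑ j, pd j (pd j (v i)) x * φ i x)
      - ∑ i, φ i x * pd i q x) cube := i1.sub i2
  rw [integral_sub i12 i3, integral_sub i1 i2, integral_add i4 i5, integral_const_mul,
    integral_const_mul]
  have s2 : ∫ x in cube, ∑ i, φ i x * pd i q x = 0 := by
    rw [integral_finsetSum _ fun i _ => ((hφ i).mul (hq.pd i)).int]
    exact hpr
  have s3 : ∫ x in cube, ∑ i, ∑ j, v j x * pd j (v i) x * φ i x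
      = ∑ i, ∑ j, ∫ x in cube, v j x * pd j (v i) x * φ i x := by
    rw [integral_finsetSum _ fun i _ => (SP.sum (s := Finset.univ) fun j _ =>
      ((hv j).mul ((hv i).pd j)).mul (hφ i)).int]
    refine Finset.sum_congr rfl fun i _ => ?_
    rw [integral_finsetSum _ fun j _ => (((hv j).mul ((hv i).pd j)).mul (hφ i)).int]
  have s4 : ∫ x in cube, ∑ i, ∑ j, v i x * v j x * pd i (φ j) x
      = ∑ i, ∑ j, ∫ x in cube, v i x * v j x * pd i (φ j) x := by
    rw [integral_finsetSum _ fun i _ => (SP.sum (s := Finset.univ) fun j _ =>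
      ((hv i).mul (hv j)).mul ((hφ j).pd i)).int]
    refine Finset.sum_congr rfl fun i _ => ?_
    rw [integral_finsetSum _ fun j _ => (((hv i).mul (hv j)).mul ((hφ j).pd i)).int]
  have s1 : ∫ x in cube, ∑ i, ∑ j, pd j (pd j (v i)) x * φ i x
      = ∫ x in cube, ∑ i, v i x * ∑ j, pd j (pd j (φ i)) x := by
    simp_rw [Finset.mul_sum]
    rw [integral_finsetSum _ fun i _ => (SP.sum (s := Finset.univ) fun j _ =>
      (((hv i).pd j).pd j).mul (hφ i)).int,
      integral_finsetSum _ fun i _ => (SP.sum (s := Finset.univ) fun j _ =>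
      (hv i).mul (((hφ i).pd j).pd j)).int]
    refine Finset.sum_congr rfl fun i _ => ?_
    rw [integral_finsetSum _ fun j _ => ((((hv i).pd j).pd j).mul (hφ i)).int,
      integral_finsetSum _ fun j _ => ((hv i).mul (((hφ i).pd j).pd j)).int]
    exact Finset.sum_congr rfl fun j _ => hvis i j
  rw [s1, s2, s3, hcon, s4]
  ring

/-- The integrand of the weak formulation. -/
noncomputable def gg (ν : ℝ) (u : ℝ → V → V) (φ : V → V) (z : ℝ × V) : ℝ :=
  ∑ i, ∑ j, u z.1 z.2 i * u z.1 z.2 j * pd i (fun y => φ y j) z.2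
    + ν * ∑ i, u z.1 z.2 i * ∑ j, pd j (pd j (fun y => φ y i)) z.2

/-- The derivative in time, tested. -/
noncomputable def hh (u : ℝ → V → V) (φ : V → V) (z : ℝ × V) : ℝ :=
  ∑ i, deriv (fun s => u s z.2 i) z.1 * φ z.2 i

section

variable {ν : ℝ} {u : ℝ → V → V} {p : ℝ → V → ℝ} {φ : V → V}

lemma comp_smooth (hu : OSol ν u p) (i : Fin 3) :
    ContDiffOn ℝ ∞ (fun z : ℝ × V => (fun s y => u s y i) z.1 z.2) (Ioi 0 ×ˢ univ) :=
  contDiffOn_pi.1 hu.smooth_u i

lemma sp_u (hu : OSol ν u p) {t : ℝ} (ht : 0 < t) (i : Fin 3) : SP (fun y => u t y i) :=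
  ⟨slice (w := fun s y => u s y i) (comp_smooth hu i) ht, fun j x => by
    show u t (x + Pi.single j 1) i = u t x i
    rw [hu.per_u t ht j x]⟩

lemma sp_p (hu : OSol ν u p) {t : ℝ} (ht : 0 < t) : SP (p t) :=
  ⟨slice hu.smooth_p ht, hu.per_p t ht⟩

lemma sp_φ (hφ : ContDiff ℝ ∞ φ) (hp : Per φ) (i : Fin 3) : SP (fun y => φ y i) :=
  ⟨contDiff_pi.1 hφ i, fun j x => by
    show φ (x + Pi.single j 1) i = φ x i
    rw [hp j x]⟩

/-- The spatial identity for the solution. -/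
lemma at_time (hu : OSol ν u p) (hφ : ContDiff ℝ ∞ φ) (hp : Per φ)
    (hd : ∀ x, ∑ i, pd i (fun y => φ y i) x = 0) {t : ℝ} (ht : 0 < t) :
    ∫ x in cube, hh u φ (t, x) = ∫ x in cube, gg ν u φ (t, x) := by
  have h := space ν (fun i => sp_u hu ht i) (fun i => sp_φ hφ hp i) (sp_p hu ht)
    (hu.divfree t ht) hd
  refine Eq.trans ?_ h
  congr 1
  funext x
  unfold hh
  refine Finset.sum_congr rfl fun i _ => ?_
  have hm := hu.momentum t ht x i
  have e : deriv (fun s => u s x i) t = ν * ∑ j, pd j (pd j (fun y => u t y i)) x - pd i (p t) x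
      - ∑ j, u t x j * pd j (fun y => u t y i) x := by linarith
  show deriv (fun s => u s x i) t * φ x i = _
  rw [e]

lemma hh_cont (hu : OSol ν u p) (hφ : ContDiff ℝ ∞ φ) :
    ContinuousOn (hh u φ) (Ioi 0 ×ˢ univ) := by
  unfold hh
  refine continuousOn_finsetSum _ fun i _ => ContinuousOn.mul ?_ ?_
  · refine (dir_cont (w := fun s y => u s y i) (comp_smooth hu i) ((1 : ℝ), (0 : V))).congr ?_
    rintro ⟨t, x⟩ ⟨ht, -⟩
    exact (has_dt (w := fun s y => u s y i) (comp_smooth hu i) ht x).deriv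
  · have h1 : Continuous fun y => φ y i := (contDiff_pi.1 hφ i).continuous
    exact (h1.comp continuous_snd).continuousOn

lemma gg_cont (hu : OSol ν u p) (hφ : ContDiff ℝ ∞ φ) (hp : Per φ) :
    ContinuousOn (gg ν u φ) (Ioi 0 ×ˢ univ) := by
  have hui : ∀ i, ContinuousOn (fun z : ℝ × V => u z.1 z.2 i) (Ioi 0 ×ˢ univ) := fun i =>
    (comp_smooth hu i).continuousOn
  have h1 : ∀ i j, Continuous fun z : ℝ × V => pd i (fun y => φ y j) z.2 := fun i j =>
    ((sp_φ hφ hp j).pd i).cont.comp continuous_snd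
  have h2 : ∀ i j, Continuous fun z : ℝ × V => pd j (pd j (fun y => φ y i)) z.2 := fun i j =>
    (((sp_φ hφ hp i).pd j).pd j).cont.comp continuous_snd
  unfold gg
  refine ContinuousOn.add ?_ ?_
  · exact continuousOn_finsetSum _ fun i _ => continuousOn_finsetSum _ fun j _ =>
      ((hui i).mul (hui j)).mul (h1 i j).continuousOn
  · exact continuousOn_const.mul (continuousOn_finsetSum _ fun i _ =>
      (hui i).mul (continuousOn_finsetSum _ fun j _ => (h2 i j).continuousOn))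

lemma cube_compact : IsCompact cube := isCompact_Icc

lemma cube_meas : MeasurableSet cube := measurableSet_Icc

/-- a function which is continuous for positive times is integrable over compact time intervals -/
lemma int_box {f : ℝ × V → ℝ} (hf : ContinuousOn f (Ioi 0 ×ˢ univ)) {τ t : ℝ} (hτ : 0 < τ) :
    IntegrableOn f (Ioc τ t ×ˢ cube) := by
  have h1 : IntegrableOn f (Icc τ t ×ˢ cube) :=
    (hf.mono fun z hz => ⟨hτ.trans_le hz.1.1, mem_univ _⟩).integrableOn_compact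
      (isCompact_Icc.prod cube_compact)
  exact h1.mono_set (prod_mono Ioc_subset_Icc_self le_rfl)

/-- The identity between two positive times. -/
lemma two_times (hu : OSol ν u p) (hφ : ContDiff ℝ ∞ φ) (hp : Per φ)
    (hd : ∀ x, ∑ i, pd i (fun y => φ y i) x = 0) {τ t : ℝ} (hτ : 0 < τ) (hτt : τ ≤ t) :
    (∫ x in cube, ∑ i, u t x i * φ x i) - ∫ x in cube, ∑ i, u τ x i * φ x i
      = ∫ z in Ioc τ t ×ˢ cube, gg ν u φ z := by
  have ht : 0 < t := hτ.trans_le hτt
  have ih := int_box (hh_cont hu hφ) (t := t) hτ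
  have ig := int_box (gg_cont hu hφ hp) (t := t) hτ
  have e1 : ∫ z in Ioc τ t ×ˢ cube, gg ν u φ z = ∫ z in Ioc τ t ×ˢ cube, hh u φ z := by
    rw [Measure.volume_eq_prod] at ih ig ⊢
    rw [setIntegral_prod _ ig, setIntegral_prod _ ih]
    refine setIntegral_congr_fun measurableSet_Ioc fun s hs => ?_
    exact (at_time hu hφ hp hd (hτ.trans hs.1)).symm
  rw [e1]
  have e2 : ∫ z in Ioc τ t ×ˢ cube, hh u φ z
      = ∫ x in cube, ∫ s in Ioc τ t, hh u φ (s, x) := by
    rw [Measure.volume_eq_prod] at ih ⊢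
    rw [setIntegral_prod _ ih]
    have ih' : Integrable (hh u φ) ((volume.restrict (Ioc τ t)).prod (volume.restrict cube)) := by
      rw [Measure.prod_restrict]
      exact ih
    exact integral_integral_swap (f := fun s x => hh u φ (s, x)) ih'
  rw [e2]
  have hint : ∀ s, 0 < s → IntegrableOn (fun x => ∑ i, u s x i * φ x i) cube := fun s hs =>
    (SP.sum (s := Finset.univ) fun i _ => (sp_u hu hs i).mul (sp_φ hφ hp i)).int
  rw [← integral_sub (hint t ht) (hint τ hτ)]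
  congr 1
  funext x
  unfold hh
  have hci : ∀ i, IntegrableOn (fun s => deriv (fun s => u s x i) s * φ x i) (Ioc τ t) := by
    intro i
    have h1 : ContinuousOn (fun s : ℝ => fderiv ℝ (fun z : ℝ × V => u z.1 z.2 i) (s, x)
        ((1 : ℝ), (0 : V)) * φ x i) (Icc τ t) := by
      refine ContinuousOn.mul ?_ continuousOn_const
      exact (dir_cont (w := fun s y => u s y i) (comp_smooth hu i) ((1 : ℝ), (0 : V))).comp (by fun_prop)
        (fun s hs => ⟨hτ.trans_le hs.1, mem_univ _⟩)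
    have h2 := (h1.integrableOn_compact isCompact_Icc (μ := volume)).mono_set
      (Ioc_subset_Icc_self (a := τ) (b := t))
    refine h2.congr_fun ?_ measurableSet_Ioc
    intro s hs
    show fderiv ℝ (fun z : ℝ × V => u z.1 z.2 i) (s, x) ((1 : ℝ), (0 : V)) * φ x i
      = deriv (fun s => u s x i) s * φ x i
    rw [(has_dt (w := fun s y => u s y i) (comp_smooth hu i) (hτ.trans hs.1) x).deriv]
  rw [integral_finsetSum _ fun i _ => hci i, ← Finset.sum_sub_distrib]
  refine Finset.sum_congr rfl fun i _ => ?_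
  rw [integral_mul_const]
  have := ftc (w := fun s y => u s y i) (comp_smooth hu i) hτ hτt x
  rw [this]
  ring

/-- The integrand is integrable up to the time zero. -/
lemma gg_int (hu : OSol ν u p) (hφ : ContDiff ℝ ∞ φ) (hp : Per φ)
    (hL : ∀ (T : ℝ) (i : Fin 3),
      IntegrableOn (fun z : ℝ × V => u z.1 z.2 i ^ 2) (Ioc 0 T ×ˢ cube)) (t : ℝ) :
    IntegrableOn (gg ν u φ) (Ioc 0 t ×ˢ cube) := by
  have hms : MeasurableSet (Ioc (0 : ℝ) t ×ˢ cube) := measurableSet_Ioc.prod cube_meas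
  have hsub : Ioc (0 : ℝ) t ×ˢ cube ⊆ Ioi 0 ×ˢ univ := fun z hz => ⟨hz.1.1, mem_univ _⟩
  have hui : ∀ i, AEStronglyMeasurable (fun z : ℝ × V => u z.1 z.2 i)
      (volume.restrict (Ioc (0 : ℝ) t ×ˢ cube)) := fun i =>
    ((comp_smooth hu i).continuousOn.mono hsub).aestronglyMeasurable hms
  have hfin : volume (Ioc (0 : ℝ) t ×ˢ cube) < ⊤ := by
    rw [Measure.volume_eq_prod, Measure.prod_prod]
    exact ENNReal.mul_lt_top measure_Ioc_lt_top cube_compact.measure_lt_top
  have hc : IntegrableOn (fun _ : ℝ × V => (1 : ℝ)) (Ioc (0 : ℝ) t ×ˢ cube) :=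
    integrableOn_const hfin.ne
  have hprod : ∀ i j, IntegrableOn (fun z : ℝ × V => u z.1 z.2 i * u z.1 z.2 j)
      (Ioc 0 t ×ˢ cube) := by
    intro i j
    refine Integrable.mono' ((hL t i).add (hL t j)) ((hui i).mul (hui j)) ?_
    refine Eventually.of_forall fun z => ?_
    rw [Real.norm_eq_abs, abs_mul]
    show |u z.1 z.2 i| * |u z.1 z.2 j| ≤ u z.1 z.2 i ^ 2 + u z.1 z.2 j ^ 2
    nlinarith [sq_nonneg (|u z.1 z.2 i| - |u z.1 z.2 j|), sq_abs (u z.1 z.2 i),
      sq_abs (u z.1 z.2 j), sq_nonneg (u z.1 z.2 i), sq_nonneg (u z.1 z.2 j)]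
  have hlin : ∀ i, IntegrableOn (fun z : ℝ × V => u z.1 z.2 i) (Ioc 0 t ×ˢ cube) := by
    intro i
    refine Integrable.mono' ((hL t i).add hc) (hui i) ?_
    refine Eventually.of_forall fun z => ?_
    rw [Real.norm_eq_abs]
    show |u z.1 z.2 i| ≤ u z.1 z.2 i ^ 2 + 1
    nlinarith [sq_nonneg (|u z.1 z.2 i| - 1), sq_abs (u z.1 z.2 i)]
  -- multiplication with a continuous function of `x`
  have hmul : ∀ (f : ℝ × V → ℝ) (ψ : V → ℝ), IntegrableOn f (Ioc 0 t ×ˢ cube) → Continuous ψ →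
      IntegrableOn (fun z => f z * ψ z.2) (Ioc 0 t ×ˢ cube) := by
    intro f ψ hf hψ
    obtain ⟨C, hC⟩ := cube_compact.exists_bound_of_continuousOn hψ.continuousOn
    refine Integrable.mono' (hf.norm.mul_const C) (hf.aestronglyMeasurable.mul
      (hψ.comp continuous_snd).aestronglyMeasurable) ?_
    refine (ae_restrict_iff' hms).2 (Eventually.of_forall fun z hz => ?_)
    rw [norm_mul]
    exact mul_le_mul_of_nonneg_left (hC z.2 hz.2) (norm_nonneg _)
  unfold gg
  refine Integrable.add ?_ (Integrable.const_mul ?_ ν)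
  · exact integrable_finsetSum _ fun i _ => integrable_finsetSum _ fun j _ =>
      hmul _ (fun x => pd i (fun y => φ y j) x) (hprod i j) ((sp_φ hφ hp j).pd i).cont
  · exact integrable_finsetSum _ fun i _ => hmul _
      (fun x => ∑ j, pd j (pd j (fun y => φ y i)) x) (hlin i)
      (SP.sum (s := Finset.univ) fun j _ => ((sp_φ hφ hp i).pd j).pd j).cont

end

/-- W5c. -/
theorem t_WK (ν : ℝ) (u : ℝ → V → V) (p : ℝ → V → ℝ) (hu : OSol ν u p)
    (hL : ∀ (T : ℝ) (i : Fin 3),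
      IntegrableOn (fun z : ℝ × V => u z.1 z.2 i ^ 2) (Ioc 0 T ×ˢ cube))
    (u₀ : V → V) (hu₀ : ContDiff ℝ ∞ u₀) (hp₀ : Per u₀)
    (hlim : ∀ i, ∀ φ : V → ℝ, ContDiff ℝ ∞ φ → Per φ →
      Tendsto (fun t => ∫ x in cube, u t x i * φ x) (𝓝[>] 0) (𝓝 (∫ x in cube, u₀ x i * φ x)))
    (φ : V → V) (hφ : ContDiff ℝ ∞ φ) (hp : Per φ)
    (hd : ∀ x, ∑ i, pd i (fun y => φ y i) x = 0) (t : ℝ) (ht : 0 < t) :
    ∫ x in cube, ∑ i, u t x i * φ x i = (∫ x in cube, ∑ i, u₀ x i * φ x i)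
      + ∫ z in Ioc 0 t ×ˢ cube,
        (∑ i, ∑ j, u z.1 z.2 i * u z.1 z.2 j * pd i (fun y => φ y j) z.2
        + ν * ∑ i, u z.1 z.2 i * ∑ j, pd j (pd j (fun y => φ y i)) z.2) := by
  show _ = _ + ∫ z in Ioc 0 t ×ˢ cube, gg ν u φ z
  -- the times
  let τ : ℕ → ℝ := fun n => t / (n + 1)
  have hτ0 : ∀ n, 0 < τ n := fun n => by positivity
  have hτt : ∀ n, τ n ≤ t := fun n => div_le_self ht.le (by
    have : (0 : ℝ) ≤ n := Nat.cast_nonneg n
    linarith)
  have hτlim : Tendsto τ atTop (𝓝[>] 0) := by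
    refine tendsto_nhdsWithin_iff.2 ⟨?_, Eventually.of_forall hτ0⟩
    exact tendsto_const_nhds.div_atTop
      (tendsto_atTop_add_const_right _ _ tendsto_natCast_atTop_atTop)
  have hmono : Monotone fun n => Ioc (τ n) t ×ˢ cube := by
    intro m n hmn
    refine prod_mono (Ioc_subset_Ioc_left ?_) le_rfl
    have : (m : ℝ) ≤ n := by exact_mod_cast hmn
    exact div_le_div_of_nonneg_left ht.le (by positivity) (by linarith)
  have hU : ⋃ n, Ioc (τ n) t ×ˢ cube = Ioc 0 t ×ˢ cube := by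
    ext z
    simp only [mem_iUnion, mem_prod, mem_Ioc]
    constructor
    · rintro ⟨n, ⟨h1, h2⟩, h3⟩
      exact ⟨⟨(hτ0 n).trans h1, h2⟩, h3⟩
    · rintro ⟨⟨h1, h2⟩, h3⟩
      have hev : ∀ᶠ n in atTop, τ n < z.1 :=
        (tendsto_nhdsWithin_iff.1 hτlim).1.eventually (gt_mem_nhds h1)
      obtain ⟨n, hn⟩ := hev.exists
      exact ⟨n, ⟨hn, h2⟩, h3⟩
  have hig := gg_int hu hφ hp hL t
  have hl1 : Tendsto (fun n => ∫ z in Ioc (τ n) t ×ˢ cube, gg ν u φ z) atTop
      (𝓝 (∫ z in Ioc 0 t ×ˢ cube, gg ν u φ z)) := by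
    have h := tendsto_setIntegral_of_monotone (μ := volume) (f := gg ν u φ)
      (fun n => measurableSet_Ioc.prod cube_meas) hmono (by rw [hU]; exact hig)
    rwa [hU] at h
  -- the limit at time zero
  have hl2 : Tendsto (fun s => ∫ x in cube, ∑ i, u s x i * φ x i) (𝓝[>] 0)
      (𝓝 (∫ x in cube, ∑ i, u₀ x i * φ x i)) := by
    have h1 : Tendsto (fun s => ∑ i, ∫ x in cube, u s x i * φ x i) (𝓝[>] 0)
        (𝓝 (∑ i, ∫ x in cube, u₀ x i * φ x i)) :=
      tendsto_finsetSum _ fun i _ => hlim i (fun y => φ y i) (contDiff_pi.1 hφ i)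
        (sp_φ hφ hp i).per
    have h2 : ∑ i, ∫ x in cube, u₀ x i * φ x i = ∫ x in cube, ∑ i, u₀ x i * φ x i := by
      rw [integral_finsetSum _ fun i _ => ((sp_φ hu₀ hp₀ i).mul (sp_φ hφ hp i)).int]
    rw [h2] at h1
    refine h1.congr' ?_
    filter_upwards [self_mem_nhdsWithin] with s hs
    rw [integral_finsetSum _ fun i _ => ((sp_u hu hs i).mul (sp_φ hφ hp i)).int]
  have hl3 : Tendsto (fun n => (∫ x in cube, ∑ i, u t x i * φ x i)
      - ∫ x in cube, ∑ i, u (τ n) x i * φ x i) atTop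
      (𝓝 ((∫ x in cube, ∑ i, u t x i * φ x i) - ∫ x in cube, ∑ i, u₀ x i * φ x i)) :=
    tendsto_const_nhds.sub (hl2.comp hτlim)
  have heq : (fun n => (∫ x in cube, ∑ i, u t x i * φ x i)
      - ∫ x in cube, ∑ i, u (τ n) x i * φ x i)
      = fun n => ∫ z in Ioc (τ n) t ×ˢ cube, gg ν u φ z := by
    funext n
    exact two_times hu hφ hp hd (hτ0 n) (hτt n)
  rw [heq] at hl3
  have := tendsto_nhds_unique hl3 hl1
  linarith

end Run7.h475.WS
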