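import Pool.Agent.Run7.h475.WS.Wk
import Pool.Agent.Run7.h782.WS.Defs

/-!
WS, piece W5c (helper475).
-/

set_option autoImplicit false

namespace Run7.h475.WS

open Pool.Agent.Run7.h782.WS

/-- Piece W5c. -/
theorem t_StmWk : StmWk := fun ν u p hu hL u₀ h1 h2 h3 φ h4 h5 h6 t ht =>
  t_WK ν u p hu hL u₀ h1 h2 h3 φ h4 h5 h6 t ht

end Run7.h475.WS
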